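import Mathlib

/-! Groups of deck maps (given as sets of maps), fundamental domains and the quotient functional
`F ↦ ∫⁻ x in D, F x ∂μ` on invariant functions. -/

namespace Liou

open MeasureTheory Set Filter Topology
open scoped ENNReal

/-- A set of maps which is a group under composition. -/
structure IsGrp {T : Type*} (Dk : Set (T → T)) : Prop where
  id_mem : id ∈ Dk
  comp_mem : ∀ σ ∈ Dk, ∀ τ ∈ Dk, σ ∘ τ ∈ Dk
  inv_mem : ∀ τ ∈ Dk, ∃ τ' ∈ Dk, τ ∘ τ' = id ∧ τ' ∘ τ = id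

namespace IsGrp

variable {T : Type*} {Dk : Set (T → T)}

/-- the inverse in a group of maps -/
noncomputable def inv (h : IsGrp Dk) (τ : Dk) : Dk :=
  ⟨(h.inv_mem τ τ.2).choose, (h.inv_mem τ τ.2).choose_spec.1⟩

theorem apply_inv (h : IsGrp Dk) (τ : Dk) (x : T) : τ.1 ((h.inv τ).1 x) = x :=
  congrFun (h.inv_mem τ τ.2).choose_spec.2.1 x

theorem inv_apply (h : IsGrp Dk) (τ : Dk) (x : T) : (h.inv τ).1 (τ.1 x) = x :=
  congrFun (h.inv_mem τ τ.2).choose_spec.2.2 x

theorem inv_inv (h : IsGrp Dk) (τ : Dk) : h.inv (h.inv τ) = τ := by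
  apply Subtype.ext
  funext x
  have h4 : ∀ y, (h.inv (h.inv τ)).1 ((h.inv τ).1 y) = y := h.inv_apply (h.inv τ)
  have h5 := h4 (τ.1 x)
  rwa [h.inv_apply τ x] at h5

/-- inversion as a permutation of the group -/
noncomputable def invEquiv (h : IsGrp Dk) : Dk ≃ Dk where
  toFun := h.inv
  invFun := h.inv
  left_inv := h.inv_inv
  right_inv := h.inv_inv

theorem injective (h : IsGrp Dk) {τ : T → T} (hτ : τ ∈ Dk) : Function.Injective τ := by
  intro x y hxy
  have := congrArg (h.inv ⟨τ, hτ⟩).1 hxy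
  rwa [h.inv_apply ⟨τ, hτ⟩ x, h.inv_apply ⟨τ, hτ⟩ y] at this

end IsGrp

/-- `D` meets every orbit exactly once (measurable fundamental domain). -/
structure IsFD {T : Type*} [MeasurableSpace T] (Dk : Set (T → T)) (D : Set T) : Prop where
  meas : MeasurableSet D
  exists_mem : ∀ x, ∃ τ ∈ Dk, τ x ∈ D
  unique : ∀ x, ∀ σ ∈ Dk, ∀ τ ∈ Dk, σ x ∈ D → τ x ∈ D → σ = τ

section sums

variable {T : Type*} [MeasurableSpace T] {Dk : Set (T → T)} {D : Set T}

theorem IsFD.tsum_indicator (hD : IsFD Dk D) (x : T) :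
    ∑' τ : Dk, D.indicator (fun _ => (1 : ℝ≥0∞)) (τ.1 x) = 1 := by
  obtain ⟨τ, hτ, hx⟩ := hD.exists_mem x
  rw [tsum_eq_single ⟨τ, hτ⟩]
  · simp [hx]
  · intro σ hσ
    rw [indicator_of_notMem]
    intro hc
    exact hσ (Subtype.ext (hD.unique x σ.1 σ.2 τ hτ hc hx))

theorem IsFD.tsum_indicator_inv (h : IsGrp Dk) (hD : IsFD Dk D) (x : T) :
    ∑' τ : Dk, D.indicator (fun _ => (1 : ℝ≥0∞)) ((h.inv τ).1 x) = 1 := by
  have h1 := hD.tsum_indicator x
  have h2 := h.invEquiv.tsum_eq (fun τ : Dk => D.indicator (fun _ => (1 : ℝ≥0∞)) (τ.1 x))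
  exact h2.trans h1

end sums

section functional

variable {T : Type*} [MeasurableSpace T] {μ : Measure T} {Dk : Set (T → T)} {D : Set T}

/-- `F` is measurable and invariant under the deck maps -/
def Inv (Dk : Set (T → T)) (F : T → ℝ≥0∞) : Prop := ∀ τ ∈ Dk, ∀ x, F (τ x) = F x

/-- **Invariance of the quotient functional** under measure preserving maps commuting with the
deck maps. -/
theorem lintegral_comp_eq (h : IsGrp Dk) (hD : IsFD Dk D) (hc : Dk.Countable)
    (hτ : ∀ τ ∈ Dk, MeasurePreserving τ μ μ) {Φ : T → T} (hΦ : MeasurePreserving Φ μ μ)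
    (hcomm : ∀ τ ∈ Dk, ∀ x, Φ (τ x) = τ (Φ x)) {F : T → ℝ≥0∞} (hF : Measurable F)
    (hinv : ∀ τ ∈ Dk, ∀ x, F (τ x) = F x) :
    ∫⁻ x in D, F (Φ x) ∂μ = ∫⁻ x in D, F x ∂μ := by
  classical
  have : Countable Dk := hc.to_subtype
  set I : T → ℝ≥0∞ := D.indicator (fun _ => (1 : ℝ≥0∞)) with hI
  have hIm : Measurable I := measurable_const.indicator hD.meas
  have e0 : ∀ (H : T → ℝ≥0∞), ∫⁻ x in D, H x ∂μ = ∫⁻ x, H x * I x ∂μ := by
    intro H
    rw [← lintegral_indicator hD.meas]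
    apply lintegral_congr
    intro x
    by_cases hx : x ∈ D
    · simp [hI, hx]
    · simp [hI, hx]
  have hFΦ : Measurable (fun x => F (Φ x)) := hF.comp hΦ.measurable
  calc ∫⁻ x in D, F (Φ x) ∂μ = ∫⁻ x, F (Φ x) * I x ∂μ := e0 _
    _ = ∫⁻ x, ∑' τ : Dk, F (Φ x) * I x * I (τ.1 (Φ x)) ∂μ := by
        apply lintegral_congr
        intro x
        rw [ENNReal.tsum_mul_left, hD.tsum_indicator, mul_one]
    _ = ∑' τ : Dk, ∫⁻ x, F (Φ x) * I x * I (τ.1 (Φ x)) ∂μ := by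
        apply lintegral_tsum
        intro τ
        exact ((hFΦ.mul hIm).mul
          (hIm.comp ((hτ τ.1 τ.2).measurable.comp hΦ.measurable))).aemeasurable
    _ = ∑' τ : Dk, ∫⁻ y, F (Φ y) * I (Φ y) * I ((h.inv τ).1 y) ∂μ := by
        apply tsum_congr
        intro τ
        have h1 := (hτ (h.inv τ).1 (h.inv τ).2).lintegral_comp
          (f := fun x => F (Φ x) * I x * I (τ.1 (Φ x)))
          ((hFΦ.mul hIm).mul (hIm.comp ((hτ τ.1 τ.2).measurable.comp hΦ.measurable)))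
        rw [← h1]
        apply lintegral_congr
        intro y
        have h2 : Φ ((h.inv τ).1 y) = (h.inv τ).1 (Φ y) := hcomm _ (h.inv τ).2 y
        rw [h2, hinv _ (h.inv τ).2, h.apply_inv]
        ring
    _ = ∫⁻ y, ∑' τ : Dk, F (Φ y) * I (Φ y) * I ((h.inv τ).1 y) ∂μ := by
        rw [lintegral_tsum]
        intro τ
        exact ((hFΦ.mul (hIm.comp hΦ.measurable)).mul
          (hIm.comp (hτ (h.inv τ).1 (h.inv τ).2).measurable)).aemeasurable
    _ = ∫⁻ y, F (Φ y) * I (Φ y) ∂μ := by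
        apply lintegral_congr
        intro y
        rw [ENNReal.tsum_mul_left, hD.tsum_indicator_inv h, mul_one]
    _ = ∫⁻ y, F y * I y ∂μ :=
        hΦ.lintegral_comp (f := fun y => F y * I y) (hF.mul hIm)
    _ = ∫⁻ x in D, F x ∂μ := (e0 _).symm

/-- A measurable set which injects into the quotient has integral at most the total one. -/
theorem setLIntegral_le (h : IsGrp Dk) (hD : IsFD Dk D) (hc : Dk.Countable)
    (hτ : ∀ τ ∈ Dk, MeasurePreserving τ μ μ) {B : Set T} (hB : MeasurableSet B)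
    (hinj : ∀ τ ∈ Dk, τ ≠ id → ∀ x ∈ B, τ x ∉ B) {F : T → ℝ≥0∞} (hF : Measurable F)
    (hinv : ∀ τ ∈ Dk, ∀ x, F (τ x) = F x) :
    ∫⁻ x in B, F x ∂μ ≤ ∫⁻ x in D, F x ∂μ := by
  classical
  have : Countable Dk := hc.to_subtype
  set I : T → ℝ≥0∞ := D.indicator (fun _ => (1 : ℝ≥0∞)) with hI
  set J : T → ℝ≥0∞ := B.indicator (fun _ => (1 : ℝ≥0∞)) with hJ
  have hIm : Measurable I := measurable_const.indicator hD.meas
  have hJm : Measurable J := measurable_const.indicator hB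
  have e0 : ∀ (E : Set T) (_ : MeasurableSet E) (H : T → ℝ≥0∞),
      ∫⁻ x in E, H x ∂μ = ∫⁻ x, H x * E.indicator (fun _ => (1 : ℝ≥0∞)) x ∂μ := by
    intro E hE H
    rw [← lintegral_indicator hE]
    apply lintegral_congr
    intro x
    by_cases hx : x ∈ E
    · simp [hx]
    · simp [hx]
  have hsum : ∀ y, ∑' τ : Dk, J ((h.inv τ).1 y) ≤ 1 := by
    intro y
    have e : ∑' τ : Dk, J ((h.inv τ).1 y) = ∑' τ : Dk, J (τ.1 y) :=
      h.invEquiv.tsum_eq (fun τ : Dk => J (τ.1 y))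
    rw [e]
    by_cases hy : ∃ τ : Dk, τ.1 y ∈ B
    · obtain ⟨τ, hy⟩ := hy
      rw [tsum_eq_single τ]
      · simp [hJ, hy]
      · intro σ hσ
        rw [hJ, indicator_of_notMem]
        intro hc'
        -- σ = (σ τ⁻¹) τ
        have h1 : σ.1 ∘ (h.inv τ).1 ∈ Dk := h.comp_mem _ σ.2 _ (h.inv τ).2
        by_cases h2 : σ.1 ∘ (h.inv τ).1 = id
        · apply hσ
          apply Subtype.ext
          funext x
          have := congrFun h2 (τ.1 x)
          simp only [Function.comp_apply, h.inv_apply, id] at this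
          exact this
        · have h3 := hinj _ h1 h2 (τ.1 y) hy
          simp only [Function.comp_apply, h.inv_apply] at h3
          exact h3 hc'
    · push Not at hy
      have : ∀ τ : Dk, J (τ.1 y) = 0 := fun τ => by rw [hJ, indicator_of_notMem (hy τ)]
      simp [this]
  calc ∫⁻ x in B, F x ∂μ = ∫⁻ x, F x * J x ∂μ := e0 B hB F
    _ = ∫⁻ x, ∑' τ : Dk, F x * J x * I (τ.1 x) ∂μ := by
        apply lintegral_congr
        intro x
        rw [ENNReal.tsum_mul_left, hD.tsum_indicator, mul_one]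
    _ = ∑' τ : Dk, ∫⁻ x, F x * J x * I (τ.1 x) ∂μ := by
        apply lintegral_tsum
        intro τ
        exact ((hF.mul hJm).mul (hIm.comp (hτ τ.1 τ.2).measurable)).aemeasurable
    _ = ∑' τ : Dk, ∫⁻ y, F y * I y * J ((h.inv τ).1 y) ∂μ := by
        apply tsum_congr
        intro τ
        have h1 := (hτ (h.inv τ).1 (h.inv τ).2).lintegral_comp
          (f := fun x => F x * J x * I (τ.1 x))
          ((hF.mul hJm).mul (hIm.comp (hτ τ.1 τ.2).measurable))
        rw [← h1]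
        apply lintegral_congr
        intro y
        rw [hinv _ (h.inv τ).2, h.apply_inv]
        ring
    _ = ∫⁻ y, ∑' τ : Dk, F y * I y * J ((h.inv τ).1 y) ∂μ := by
        rw [lintegral_tsum]
        intro τ
        exact ((hF.mul hIm).mul
          (hJm.comp (hτ (h.inv τ).1 (h.inv τ).2).measurable)).aemeasurable
    _ ≤ ∫⁻ y, F y * I y ∂μ := by
        apply lintegral_mono
        intro y
        simp only
        rw [ENNReal.tsum_mul_left]
        calc F y * I y * ∑' τ : Dk, J ((h.inv τ).1 y) ≤ F y * I y * 1 := by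
              gcongr; exact hsum y
          _ = F y * I y := mul_one _
    _ = ∫⁻ x in D, F x ∂μ := (e0 D hD.meas F).symm

end functional

section domain

variable {T : Type*} [TopologicalSpace T] {Dk : Set (T → T)}

/-- A free, wandering, cocompact group of homeomorphisms. -/
structure IsDeck (Dk : Set (T → T)) : Prop extends IsGrp Dk where
  cont : ∀ τ ∈ Dk, Continuous τ
  wand : ∀ x, ∃ U, IsOpen U ∧ x ∈ U ∧ ∀ τ ∈ Dk, τ ≠ id → ∀ y ∈ U, τ y ∉ U
  cocompact : ∃ K, IsCompact K ∧ ∀ x, ∃ τ ∈ Dk, τ x ∈ K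

theorem IsDeck.countable [SecondCountableTopology T] [Nonempty T] (h : IsDeck Dk) :
    Dk.Countable := by
  classical
  obtain ⟨U, hU, hxU, hw⟩ := h.wand (Classical.arbitrary T)
  set f : Dk → Set T := fun τ => τ.1 ⁻¹' U with hf
  have h1 : Countable Dk := by
    apply Pairwise.countable_of_isOpen_disjoint (s := f)
    · intro σ τ hστ
      rw [Function.onFun, Set.disjoint_left]
      intro x hx hx'
      have h1 : σ.1 ∘ (h.toIsGrp.inv τ).1 ∈ Dk := h.comp_mem _ σ.2 _ (h.toIsGrp.inv τ).2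
      by_cases h2 : σ.1 ∘ (h.toIsGrp.inv τ).1 = id
      · apply hστ
        apply Subtype.ext
        funext x
        have := congrFun h2 (τ.1 x)
        simp only [Function.comp_apply, h.toIsGrp.inv_apply, id] at this
        exact this
      · have h3 := hw _ h1 h2 (τ.1 x) hx'
        simp only [Function.comp_apply, h.toIsGrp.inv_apply] at h3
        exact h3 hx
    · intro τ
      exact hU.preimage (h.cont τ.1 τ.2)
    · intro τ
      refine ⟨(h.toIsGrp.inv τ).1 (Classical.arbitrary T), ?_⟩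
      simp only [hf, mem_preimage, h.toIsGrp.apply_inv]
      exact hxU
  exact Set.countable_coe_iff.1 h1

/-- **Existence of a relatively compact Borel fundamental domain.** -/
theorem IsDeck.exists_fd [SecondCountableTopology T] [Nonempty T] [LocallyCompactSpace T]
    [T2Space T] [MeasurableSpace T] [BorelSpace T] (h : IsDeck Dk) :
    ∃ D : Set T, IsFD Dk D ∧ ∃ K, IsCompact K ∧ D ⊆ K := by
  classical
  have hcount := h.countable
  have : Countable Dk := hcount.to_subtype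
  obtain ⟨K, hK, hKc⟩ := h.cocompact
  -- small relatively compact wandering open sets
  have hloc : ∀ x : T, ∃ U, IsOpen U ∧ x ∈ U ∧ (∀ τ ∈ Dk, τ ≠ id → ∀ y ∈ U, τ y ∉ U) ∧
      ∃ C, IsCompact C ∧ U ⊆ C := by
    intro x
    obtain ⟨U, hU, hxU, hw⟩ := h.wand x
    obtain ⟨C, hC, hxC⟩ := exists_compact_mem_nhds x
    refine ⟨U ∩ interior C, hU.inter isOpen_interior, ⟨hxU, mem_interior_iff_mem_nhds.2 hxC⟩, ?_,
      C, hC, fun y hy => interior_subset hy.2⟩
    intro τ hτ hne y hy hc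
    exact hw τ hτ hne y hy.1 hc.1
  choose U hU hxU hw C hC hUC using hloc
  obtain ⟨t, ht⟩ := hK.elim_finite_subcover U hU (fun x _ => mem_iUnion.2 ⟨x, hxU x⟩)
  obtain ⟨n, e⟩ : ∃ n, Nonempty (Fin n ≃ t) := ⟨t.card, ⟨(t.equivFin).symm⟩⟩
  obtain ⟨e⟩ := e
  -- the saturated set of level i
  let S : Fin n → Set T := fun i => ⋃ τ : Dk, τ.1 ⁻¹' (U (e i))
  let D : Set T := ⋃ i : Fin n, (U (e i) \ ⋃ j : {j : Fin n // j < i}, S j.1)
  have hcov : ∀ x, ∃ i : Fin n, ∃ τ ∈ Dk, τ x ∈ U (e i) := by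
    intro x
    obtain ⟨τ, hτ, hx⟩ := hKc x
    have := ht hx
    simp only [mem_iUnion] at this
    obtain ⟨y, hy, hxy⟩ := this
    exact ⟨e.symm ⟨y, hy⟩, τ, hτ, by simpa using hxy⟩
  refine ⟨D, ⟨?_, ?_, ?_⟩, ⋃ y ∈ t, C y, ?_, ?_⟩
  · apply MeasurableSet.iUnion
    intro i
    apply (hU _).measurableSet.diff
    apply MeasurableSet.iUnion
    intro j
    apply MeasurableSet.iUnion
    intro τ
    exact (h.cont τ.1 τ.2).measurable (hU _).measurableSet
  · intro x
    -- minimal level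
    let P : Fin n → Prop := fun i => ∃ τ ∈ Dk, τ x ∈ U (e i)
    have hP : ∃ i, P i := hcov x
    obtain ⟨i, hi, hmin⟩ : ∃ i, P i ∧ ∀ j < i, ¬ P j := by
      obtain ⟨i, hi⟩ := hP
      obtain ⟨m, hm, hmin⟩ := WellFounded.has_min (wellFounded_lt (α := Fin n)) {i | P i} ⟨i, hi⟩
      exact ⟨m, hm, fun j hj hPj => hmin j hPj hj⟩
    obtain ⟨τ, hτ, hx⟩ := hi
    refine ⟨τ, hτ, mem_iUnion.2 ⟨i, hx, ?_⟩⟩
    intro hc
    simp only [mem_iUnion, S] at hc
    obtain ⟨⟨j, hj⟩, σ, hσ⟩ := hc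
    exact hmin j hj ⟨σ.1 ∘ τ, h.comp_mem _ σ.2 _ hτ, hσ⟩
  · intro x σ hσ τ hτ hσx hτx
    simp only [D, mem_iUnion] at hσx hτx
    obtain ⟨i, hi, hi'⟩ := hσx
    obtain ⟨j, hj, hj'⟩ := hτx
    have key : ∀ (i j : Fin n) (σ τ : T → T), σ ∈ Dk → τ ∈ Dk → σ x ∈ U (e i) → τ x ∈ U (e j) →
        τ x ∉ ⋃ j' : {j' : Fin n // j' < j}, S j'.1 → ¬ i < j := by
      intro i j σ τ hσ hτ hi hj hj' hij
      apply hj'
      refine mem_iUnion.2 ⟨⟨i, hij⟩, mem_iUnion.2 ⟨⟨σ ∘ (h.toIsGrp.inv ⟨τ, hτ⟩).1,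
        h.comp_mem _ hσ _ (h.toIsGrp.inv ⟨τ, hτ⟩).2⟩, ?_⟩⟩
      simp only [mem_preimage, Function.comp_apply]
      rw [h.toIsGrp.inv_apply ⟨τ, hτ⟩ x]
      exact hi
    have hij : i = j := le_antisymm (not_lt.1 (key j i τ σ hτ hσ hj hi hi'))
      (not_lt.1 (key i j σ τ hσ hτ hi hj hj'))
    subst hij
    -- σ τ⁻¹ maps τ x to σ x
    have h1 : σ ∘ (h.toIsGrp.inv ⟨τ, hτ⟩).1 ∈ Dk := h.comp_mem _ hσ _ (h.toIsGrp.inv ⟨τ, hτ⟩).2
    by_cases h2 : σ ∘ (h.toIsGrp.inv ⟨τ, hτ⟩).1 = id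
    · funext y
      have := congrFun h2 (τ y)
      simp only [Function.comp_apply, id] at this
      rwa [h.toIsGrp.inv_apply ⟨τ, hτ⟩ y] at this
    · have h3 := hw _ _ h1 h2 (τ x) hj
      simp only [Function.comp_apply] at h3
      rw [h.toIsGrp.inv_apply ⟨τ, hτ⟩ x] at h3
      exact absurd hi h3
  · exact t.isCompact_biUnion (fun y _ => hC y)
  · intro x hx
    simp only [D, mem_iUnion] at hx
    obtain ⟨i, hi, _⟩ := hx
    simp only [mem_iUnion]
    exact ⟨(e i).1, (e i).2, hUC _ hi⟩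

end domain

end Liou
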