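import Mathlib

/-! Liouville's theorem: a C¹ flow on an open set whose generator is divergence free for the
density `w` preserves the measure `w dμ`. -/

namespace Liou

open MeasureTheory Set Filter Topology

set_option linter.unusedSectionVars false

section detDeriv

variable {ι : Type*} [Fintype ι] [DecidableEq ι]

/-- the derivative of the determinant at the identity is the trace (matrices) -/
theorem hasDerivAt_det_matrix {M : ℝ → Matrix ι ι ℝ} {B : Matrix ι ι ℝ} {t : ℝ}
    (hM : M t = 1) (h : ∀ i j, HasDerivAt (fun s => M s i j) (B i j) t) :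
    HasDerivAt (fun s => (M s).det) B.trace t := by
  have e : (fun s => (M s).det) = fun s => ∑ σ : Equiv.Perm ι, (Equiv.Perm.sign σ : ℝ) * ∏ i, M s (σ i) i := by
    funext s
    rw [Matrix.det_apply']
  rw [e]
  have h1 : ∀ σ : Equiv.Perm ι, HasDerivAt (fun s => (Equiv.Perm.sign σ : ℝ) * ∏ i, M s (σ i) i)
      ((Equiv.Perm.sign σ : ℝ) * ∑ i, (∏ j ∈ Finset.univ.erase i, M t (σ j) j) * B (σ i) i) t := by
    intro σ
    apply HasDerivAt.const_mul
    have := HasDerivAt.fun_finsetProd (u := Finset.univ) (f := fun i s => M s (σ i) i)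
      (f' := fun i => B (σ i) i) (x := t) (fun i _ => h (σ i) i)
    simpa using this
  have h2 := HasDerivAt.fun_sum (u := Finset.univ) (fun σ _ => h1 σ)
  refine h2.congr_deriv ?_
  rw [Finset.sum_eq_single 1]
  · simp only [Equiv.Perm.sign_one, Units.val_one, Int.cast_one, one_mul, Equiv.Perm.one_apply]
    unfold Matrix.trace
    apply Finset.sum_congr rfl
    intro i _
    rw [Finset.prod_eq_one, one_mul]
    · rfl
    · intro j _
      rw [hM, Matrix.one_apply_eq]
  · intro σ _ hσ
    rw [Finset.sum_eq_zero, mul_zero]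
    intro i _
    obtain ⟨j, hj⟩ : ∃ j, σ j ≠ j := by
      by_contra hc
      push Not at hc
      exact hσ (Equiv.ext hc)
    have hσj : σ (σ j) ≠ σ j := fun hc => hj (σ.injective hc)
    rw [mul_eq_zero]; left
    by_cases hij : i = j
    · subst hij
      exact Finset.prod_eq_zero (i := σ i) (by simp [hj]) (by rw [hM, Matrix.one_apply_ne hσj])
    · exact Finset.prod_eq_zero (i := j) (by simp [Ne.symm hij]) (by rw [hM, Matrix.one_apply_ne hj])
  · simp

end detDeriv

section flow

variable {E : Type*} [NormedAddCommGroup E] [NormedSpace ℝ E] [FiniteDimensional ℝ E]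

/-- the derivative of the determinant at the identity is the trace -/
theorem hasDerivAt_det {A : ℝ → E →L[ℝ] E} {B : E →L[ℝ] E} {t : ℝ}
    (hA : A t = ContinuousLinearMap.id ℝ E) (h : HasDerivAt A B t) :
    HasDerivAt (fun s => (A s).det) (LinearMap.trace ℝ E (B : E →ₗ[ℝ] E)) t := by
  classical
  let b := Module.finBasis ℝ E
  have e : (fun s => (A s).det) = fun s => (LinearMap.toMatrix b b (A s : E →ₗ[ℝ] E)).det := by
    funext s
    rw [LinearMap.det_toMatrix]
  rw [e, LinearMap.trace_eq_matrix_trace ℝ b]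
  apply hasDerivAt_det_matrix
  · rw [hA]
    simp
  · intro i j
    have h1 : HasDerivAt (fun s => A s (b j)) (B (b j)) t := by
      simpa using h.clm_apply (hasDerivAt_const t (b j))
    have h2 : HasDerivAt (fun s => b.repr (A s (b j)) i) (b.repr (B (b j)) i) t :=
      ((LinearMap.toContinuousLinearMap (b.coord i)).hasFDerivAt).comp_hasDerivAt t h1
    simpa [LinearMap.toMatrix_apply] using h2

/-- data of a `C¹` flow on an open set, divergence free for the density `w` -/
structure DivFree (U : Set E) (Φ : ℝ → E → E) (A : ℝ → E → E →L[ℝ] E) (V : E → E)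
    (V' : E → E →L[ℝ] E) (w : E → ℝ) (w' : E → E →L[ℝ] ℝ) : Prop where
  open_U : IsOpen U
  maps : ∀ t, ∀ x ∈ U, Φ t x ∈ U
  zero : ∀ x ∈ U, Φ 0 x = x
  add : ∀ s t, ∀ x ∈ U, Φ (s + t) x = Φ s (Φ t x)
  deriv_x : ∀ t, ∀ x ∈ U, HasFDerivAt (Φ t) (A t x) x
  deriv_t : ∀ x ∈ U, HasDerivAt (fun t => Φ t x) (V x) 0
  var_t : ∀ x ∈ U, HasDerivAt (fun t => A t x) (V' x) 0
  pos_w : ∀ x ∈ U, 0 < w x
  deriv_w : ∀ x ∈ U, HasFDerivAt w (w' x) x
  div : ∀ x ∈ U, w x * LinearMap.trace ℝ E (V' x : E →ₗ[ℝ] E) + w' x (V x) = 0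

variable {U : Set E} {Φ : ℝ → E → E} {A : ℝ → E → E →L[ℝ] E} {V : E → E}
    {V' : E → E →L[ℝ] E} {w : E → ℝ} {w' : E → E →L[ℝ] ℝ}

theorem DivFree.A_zero (h : DivFree U Φ A V V' w w') {x : E} (hx : x ∈ U) :
    A 0 x = ContinuousLinearMap.id ℝ E := by
  have h1 := h.deriv_x 0 x hx
  have h2 : HasFDerivAt (Φ 0) (ContinuousLinearMap.id ℝ E) x := by
    apply (hasFDerivAt_id x).congr_of_eventuallyEq
    filter_upwards [h.open_U.mem_nhds hx] with y hy
    exact h.zero y hy
  exact h1.unique h2

theorem DivFree.A_add (h : DivFree U Φ A V V' w w') {x : E} (hx : x ∈ U) (s t : ℝ) :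
    A (s + t) x = (A s (Φ t x)).comp (A t x) := by
  have h1 := h.deriv_x (s + t) x hx
  have h2 : HasFDerivAt (fun y => Φ s (Φ t y)) ((A s (Φ t x)).comp (A t x)) x :=
    (h.deriv_x s _ (h.maps t x hx)).comp x (h.deriv_x t x hx)
  have h3 : HasFDerivAt (Φ (s + t)) ((A s (Φ t x)).comp (A t x)) x := by
    apply h2.congr_of_eventuallyEq
    filter_upwards [h.open_U.mem_nhds hx] with y hy
    exact h.add s t y hy
  exact h1.unique h3

theorem DivFree.jac (h : DivFree U Φ A V V' w w') {x : E} (hx : x ∈ U) (t : ℝ) :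
    w (Φ t x) * (A t x).det = w x := by
  have hd : ∀ t, HasDerivAt (fun s => w (Φ s x) * (A s x).det) 0 t := by
    intro t
    have hy := h.maps t x hx
    have h1 : HasDerivAt (fun s => w (Φ s (Φ t x))) (w' (Φ t x) (V (Φ t x))) 0 := by
      have hw := h.deriv_w (Φ t x) hy
      have hw' : HasFDerivAt w (w' (Φ t x)) (Φ 0 (Φ t x)) := by rw [h.zero _ hy]; exact hw
      exact hw'.comp_hasDerivAt 0 (h.deriv_t _ hy)
    have h2 := hasDerivAt_det (h.A_zero hy) (h.var_t _ hy)
    have h3 := (h1.mul h2).mul_const (A t x).det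
    have h4 : HasDerivAt (fun s => w (Φ (s + t) x) * (A (s + t) x).det) 0 0 := by
      have e1 : (fun s => w (Φ (s + t) x) * (A (s + t) x).det) =
          fun y => ((fun s => w (Φ s (Φ t x))) * fun s => (A s (Φ t x)).det) y * (A t x).det := by
        funext s
        simp only [Pi.mul_apply]
        rw [h.add s t x hx, h.A_add hx s t]
        have : ((A s (Φ t x)).comp (A t x)).det = (A s (Φ t x)).det * (A t x).det := by
          have := LinearMap.det_comp (A s (Φ t x) : E →ₗ[ℝ] E) (A t x : E →ₗ[ℝ] E)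
          exact this
        rw [this]; ring
      rw [e1]
      refine h3.congr_deriv ?_
      rw [h.zero _ hy, h.A_zero hy]
      have h5 := h.div _ hy
      have h6 : (ContinuousLinearMap.id ℝ E).det = 1 := LinearMap.det_id
      rw [h6]
      rw [show w' (Φ t x) (V (Φ t x)) * 1 + w (Φ t x) * LinearMap.trace ℝ E (V' (Φ t x) : E →ₗ[ℝ] E)
        = 0 by linarith, zero_mul]
    have h5 : HasDerivAt (fun s => (fun s => w (Φ (s + t) x) * (A (s + t) x).det) (s - t)) 0 t := by
      have h6 : HasDerivAt (fun s => w (Φ (s + t) x) * (A (s + t) x).det) 0 (t - t) := by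
        rw [sub_self]; exact h4
      simpa using h6.comp_sub_const t t
    simpa using h5
  have hc := is_const_of_deriv_eq_zero (f := fun s => w (Φ s x) * (A s x).det)
    (fun t => (hd t).differentiableAt) (fun t => (hd t).deriv) t 0
  rw [hc, h.zero x hx, h.A_zero hx]
  have h6 : (ContinuousLinearMap.id ℝ E).det = 1 := LinearMap.det_id
  rw [h6, mul_one]

theorem DivFree.image (h : DivFree U Φ A V V' w w') (t : ℝ) : Φ t '' U = U := by
  apply Subset.antisymm
  · rintro _ ⟨x, hx, rfl⟩
    exact h.maps t x hx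
  · intro y hy
    refine ⟨Φ (-t) y, h.maps _ y hy, ?_⟩
    rw [← h.add _ _ y hy, add_neg_cancel, h.zero y hy]

theorem DivFree.injOn (h : DivFree U Φ A V V' w w') (t : ℝ) : InjOn (Φ t) U := by
  intro x hx y hy hxy
  have := congrArg (Φ (-t)) hxy
  rwa [← h.add _ _ x hx, ← h.add _ _ y hy, neg_add_cancel, h.zero x hx, h.zero y hy] at this

variable [MeasurableSpace E] [BorelSpace E]

/-- Liouville's theorem, integral form -/
theorem DivFree.lintegral_eq (h : DivFree U Φ A V V' w w') (μ : Measure E) [μ.IsAddHaarMeasure]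
    (t : ℝ) (F : E → ENNReal) :
    ∫⁻ x in U, F (Φ t x) * ENNReal.ofReal (w x) ∂μ = ∫⁻ x in U, F x * ENNReal.ofReal (w x) ∂μ := by
  have h1 := lintegral_image_eq_lintegral_abs_det_fderiv_mul μ h.open_U.measurableSet
    (f := Φ t) (f' := A t) (fun x hx => (h.deriv_x t x hx).hasFDerivWithinAt) (h.injOn t)
    (fun x => F x * ENNReal.ofReal (w x))
  rw [h.image t] at h1
  rw [h1]
  apply setLIntegral_congr_fun h.open_U.measurableSet
  intro x hx
  simp only
  have h2 := h.jac hx t
  have h3 := h.pos_w _ hx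
  have h4 := h.pos_w _ (h.maps t x hx)
  have h5 : 0 < (A t x).det := by
    by_contra hc
    push Not at hc
    nlinarith
  rw [abs_of_pos h5, ← mul_assoc, mul_comm (ENNReal.ofReal _) (F _), mul_assoc,
    ← ENNReal.ofReal_mul h5.le, mul_comm (A t x).det, h2]

end flow

end Liou
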